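import Pool.Agent.Helper43.PX.Dim

/-!
Project AT (MP_b8862a_ag), block AT-E3: Weyl's dimension formula in coordinates, the set of the weights need not be
symmetric. The proofs are those of Helper43/PW/DimA, DimD, DimR and Helper43/PX/Dim.
-/

set_option linter.unusedSectionVars false
set_option linter.unusedVariables false

open Module PF TF PW PX

namespace AT

variable {E : Type*} [NormedAddCommGroup E] [InnerProductSpace ℝ E] {Φ X : Finset E} {m n : ℕ} {l v : E}
  {e u : Fin m → E} {c : ℝ} {d : ℕ}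

/-- What Weyl's formula in coordinates needs. -/
structure DimH (Φ : Finset E) (n : ℕ) (l v : E) : Prop where
  reg : ∀ a ∈ Φ, (inner ℝ v a : ℝ) ≠ 0
  v_eq : v = ∑ a ∈ Ps Φ v, a
  dom : ∀ a ∈ Ps Φ v, 0 ≤ (inner ℝ l a : ℝ)
  dim : (n : ℝ) * ∏ a ∈ Ps Φ v, (inner ℝ v a : ℝ) = ∏ a ∈ Ps Φ v, (inner ℝ ((2 : ℝ) • l + v) a : ℝ)

/-- the coordinates of the sum of the positive roots -/
theorem v_sorted59 (h : DimH Φ n l v) (F : Fr Φ m e c d)
    (hs : ∀ i j, i < j → (inner ℝ v (e j) : ℝ) < inner ℝ v (e i))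
    (h0 : ∀ i, 0 ≤ (inner ℝ v (e i) : ℝ)) (hd : d ≠ 0 → ∀ i, 0 < (inner ℝ v (e i) : ℝ)) (k : Fin m) :
    (inner ℝ v (e k) : ℝ) = c * (Vd d m k : ℝ) := by
  classical
  have h1 : (inner ℝ v (e k) : ℝ) = ∑ a ∈ Ps Φ v, inner ℝ a (e k) := by
    conv_lhs => rw [h.v_eq]
    rw [sum_inner]
  have h2 : ∑ a ∈ Ps Φ v, (inner ℝ a (e k) : ℝ) =
      (∑ i, ∑ j ∈ Finset.Ioi i, (inner ℝ (c • (e i + (-1 : ℝ) • e j)) (e k) : ℝ)) +
      (∑ i, ∑ j ∈ Finset.Ioi i, (inner ℝ (c • (e i + (1 : ℝ) • e j)) (e k) : ℝ)) +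
        (if d = 0 then 0 else ∑ i, (inner ℝ ((d * c : ℝ) • e i) (e k) : ℝ)) := by
    have h3 := ps_sorted43 (M := Multiplicative ℝ) F hs h0 hd (fun a => Multiplicative.ofAdd (inner ℝ a (e k) : ℝ))
    apply Multiplicative.ofAdd.injective
    rw [ofAdd_sum, h3, ofAdd_add, ofAdd_add, ofAdd_sum, ofAdd_sum]
    simp only [ofAdd_sum]
    congr 1
  have h4 : ∀ s : ℝ, ∑ i : Fin m, ∑ j ∈ Finset.Ioi i, (inner ℝ (c • (e i + s • e j)) (e k) : ℝ) =
      c * (((m : ℝ) - 1 - (k : ℕ)) + s * (k : ℕ)) := by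
    intro s
    simp only [fr_co43 F]
    have h5 : ∀ a : Fin m, ∑ b ∈ Finset.Ioi a, c * ((if a = k then (1 : ℝ) else 0) + s * (if b = k then 1 else 0)) =
        c * ((if a = k then ((m - 1 - (k : ℕ) : ℕ) : ℝ) else 0) + s * (if a < k then 1 else 0)) := by
      intro a
      rw [← Finset.mul_sum, Finset.sum_add_distrib, Finset.sum_const, Fin.card_Ioi, nsmul_eq_mul, ← Finset.mul_sum,
        Finset.sum_ite_eq']
      simp only [Finset.mem_Ioi]
      congr 2
      by_cases ha : a = k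
      · subst ha
        simp
      · simp [ha]
    rw [Finset.sum_congr rfl fun a _ => h5 a, ← Finset.mul_sum, Finset.sum_add_distrib, Finset.sum_ite_eq',
      if_pos (Finset.mem_univ _), ← Finset.mul_sum, Finset.sum_ite, Finset.sum_const_zero, add_zero, Finset.sum_const,
      nsmul_eq_mul, mul_one]
    have h6 : (Finset.univ.filter fun a : Fin m => a < k).card = (k : ℕ) := by
      have h7 : (Finset.univ.filter fun a : Fin m => a < k) = Finset.Iio k := by
        ext a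
        simp
      rw [h7, Fin.card_Iio]
    rw [h6]
    have h8 := k.2
    have h9 : m - 1 - (k : ℕ) + 1 + (k : ℕ) = m := by omega
    have h10 : ((m - 1 - (k : ℕ) : ℕ) : ℝ) + 1 + (k : ℕ) = m := by exact_mod_cast h9
    have h11 : ((m - 1 - (k : ℕ) : ℕ) : ℝ) = (m : ℝ) - 1 - (k : ℕ) := by linarith
    rw [h11]
  rw [h1, h2, h4, h4]
  have h12 : (if d = 0 then (0 : ℝ) else ∑ i, (inner ℝ ((d * c : ℝ) • e i) (e k) : ℝ)) = d * c := by
    by_cases hd0 : d = 0
    · simp [hd0]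
    · rw [if_neg hd0]
      simp only [inner_smul_left, F.inner_e, conj_trivial, mul_ite, mul_one, mul_zero]
      rw [Finset.sum_ite_eq', if_pos (Finset.mem_univ _)]
  rw [h12]
  unfold Vd
  push_cast
  ring

/-- the formula in an ordered frame -/
theorem dim_frAR_sorted59 (h : DimH Φ n l v) (F : FrA Φ m u) {k : Fin m → ℝ}
    (hk : ∀ i, (inner ℝ l (u i) : ℝ) = k i) (hs : ∀ i j, i < j → (inner ℝ v (u j) : ℝ) < inner ℝ v (u i)) :
    (∀ i j, i < j → k j ≤ k i) ∧ n * PaR m 0 = PaR m k ∧ 0 < PaR m 0 := by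
  classical
  set D : Finset ((_ : Fin m) × Fin m) := (Finset.univ : Finset (Fin m)).sigma fun i => Finset.Ioi i with hD
  have hmemD : ∀ q : (_ : Fin m) × Fin m, q ∈ D ↔ q.1 < q.2 := by
    intro q
    simp [hD]
  have hPs : Ps Φ v = D.image fun q => u q.1 - u q.2 := by
    ext a
    unfold Ps
    rw [Finset.mem_filter, Finset.mem_image]
    constructor
    · rintro ⟨ha, hpos⟩
      obtain ⟨i, j, hij, rfl⟩ := (F.mem a).1 ha
      rcases lt_or_gt_of_ne hij with h1 | h1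
      · exact ⟨⟨i, j⟩, (hmemD _).2 h1, rfl⟩
      · have h2 := hs j i h1
        rw [inner_sub_right] at hpos
        linarith
    · rintro ⟨q, hq, rfl⟩
      have h1 := (hmemD q).1 hq
      refine ⟨(F.mem _).2 ⟨q.1, q.2, ne_of_lt h1, rfl⟩, ?_⟩
      rw [inner_sub_right]
      have := hs _ _ h1
      linarith
  have hinj : Set.InjOn (fun q : (_ : Fin m) × Fin m => u q.1 - u q.2) (D : Set ((_ : Fin m) × Fin m)) := by
    rintro ⟨i, j⟩ hq ⟨i', j'⟩ hq' heq
    have h1 := (hmemD _).1 (Finset.mem_coe.1 hq)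
    have h2 := (hmemD _).1 (Finset.mem_coe.1 hq')
    obtain ⟨h3, h4⟩ := frA_inj43 F (ne_of_lt h1) (ne_of_lt h2) heq
    simp only at h3 h4
    subst h3
    subst h4
    rfl
  have hv : ∀ i : Fin m, (inner ℝ v (u i) : ℝ) = (m : ℝ) - 1 - 2 * (i : ℕ) := by
    intro i
    have h1 : (inner ℝ v (u i) : ℝ) = ∑ a ∈ Ps Φ v, inner ℝ a (u i) := by
      conv_lhs => rw [h.v_eq]
      rw [sum_inner]
    rw [h1, hPs, Finset.sum_image hinj, hD, Finset.sum_sigma]
    simp only [frA_dif43 F]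
    have h2 : ∀ a : Fin m, ∑ b ∈ Finset.Ioi a, ((if a = i then (1 : ℝ) else 0) - (if b = i then 1 else 0)) =
        (if a = i then ((m - 1 - (i : ℕ) : ℕ) : ℝ) else 0) - (if a < i then 1 else 0) := by
      intro a
      rw [Finset.sum_sub_distrib, Finset.sum_const, Fin.card_Ioi, nsmul_eq_mul, Finset.sum_ite_eq']
      simp only [Finset.mem_Ioi]
      congr 1
      by_cases ha : a = i
      · subst ha
        simp
      · simp [ha]
    rw [Finset.sum_congr rfl fun a _ => h2 a, Finset.sum_sub_distrib, Finset.sum_ite_eq', if_pos (Finset.mem_univ _),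
      Finset.sum_ite, Finset.sum_const_zero, add_zero, Finset.sum_const, nsmul_eq_mul, mul_one]
    have h3 : (Finset.univ.filter fun a : Fin m => a < i).card = (i : ℕ) := by
      have h4 : (Finset.univ.filter fun a : Fin m => a < i) = Finset.Iio i := by
        ext a
        simp
      rw [h4, Fin.card_Iio]
    rw [h3]
    have h5 := i.2
    have h6 : m - 1 - (i : ℕ) + 1 + (i : ℕ) = m := by omega
    have h7 : ((m - 1 - (i : ℕ) : ℕ) : ℝ) + 1 + (i : ℕ) = m := by exact_mod_cast h6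
    linarith
  have hmon : ∀ i j, i < j → k j ≤ k i := by
    intro i j hij
    have h1 : u i - u j ∈ Ps Φ v := by
      rw [hPs]
      exact Finset.mem_image.2 ⟨⟨i, j⟩, (hmemD _).2 hij, rfl⟩
    have h2 := h.dom _ h1
    rw [inner_sub_right, hk, hk] at h2
    linarith
  have hne : 0 < PaR m 0 := by
    unfold PaR
    refine Finset.prod_pos fun i _ => Finset.prod_pos fun j hj => ?_
    have h1 : i < j := Finset.mem_Ioi.1 hj
    have h2 : (i : ℕ) < (j : ℕ) := h1
    have h3 : ((i : ℕ) : ℝ) < ((j : ℕ) : ℝ) := by exact_mod_cast h2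
    simp only [Pi.zero_apply]
    linarith
  have hprod : ∀ (x : Fin m → ℝ) (g : E → ℝ),
      (∀ i j, i < j → g (u i - u j) = 2 * (x i - x j + (((j : ℕ) : ℝ) - ((i : ℕ) : ℝ)))) →
      ∏ a ∈ Ps Φ v, g a = 2 ^ D.card * PaR m x := by
    intro x g hg
    rw [hPs, Finset.prod_image hinj]
    have h1 : ∏ q ∈ D, g (u q.1 - u q.2) =
        ∏ q ∈ D, (2 * (x q.1 - x q.2 + (((q.2 : ℕ) : ℝ) - ((q.1 : ℕ) : ℝ)))) :=
      Finset.prod_congr rfl fun q hq => hg _ _ ((hmemD q).1 hq)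
    rw [h1, Finset.prod_mul_distrib, Finset.prod_const, hD, Finset.prod_sigma]
    rfl
  have h1 := h.dim
  rw [hprod 0 (fun a => (inner ℝ v a : ℝ)) (by
      intro i j hij
      rw [inner_sub_right, hv, hv]
      simp only [Pi.zero_apply]
      ring),
    hprod k (fun a => (inner ℝ ((2 : ℝ) • l + v) a : ℝ)) (by
      intro i j hij
      rw [inner_add_left, inner_smul_left, inner_sub_right, inner_sub_right, hv, hv, hk, hk]
      simp only [conj_trivial]
      ring)] at h1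
  refine ⟨hmon, ?_, hne⟩
  have h2 : (2 : ℝ) ^ D.card ≠ 0 := by positivity
  have h3 : (2 : ℝ) ^ D.card * ((n : ℝ) * PaR m 0) = 2 ^ D.card * PaR m k := by
    rw [← h1]
    ring
  exact mul_left_cancel₀ h2 h3

/-- type `A` -/
theorem dim_frAR59 (h : DimH Φ n l v) (F : FrA Φ m u) {k : Fin m → ℝ} (hk : ∀ i, (inner ℝ l (u i) : ℝ) = k i) :
    ∃ σ : Equiv.Perm (Fin m), (∀ i j, i < j → k (σ j) ≤ k (σ i)) ∧
      n * PaR m 0 = PaR m (fun i => k (σ i)) ∧ 0 < PaR m 0 := by
  set σ : Equiv.Perm (Fin m) := Tuple.sort fun i => -(inner ℝ v (u i) : ℝ) with hσ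
  have hmono : Monotone ((fun i => -(inner ℝ v (u i) : ℝ)) ∘ σ) := Tuple.monotone_sort _
  have F' := frA_perm43 F σ
  have hs : ∀ i j, i < j → (inner ℝ v (u (σ j)) : ℝ) < inner ℝ v (u (σ i)) := by
    intro i j hij
    have h1 := hmono hij.le
    simp only [Function.comp_apply] at h1
    rcases lt_or_eq_of_le (show (inner ℝ v (u (σ j)) : ℝ) ≤ inner ℝ v (u (σ i)) by linarith) with h2 | h2
    · exact h2
    · exfalso
      refine h.reg (u (σ i) - u (σ j)) ((F.mem _).2 ⟨σ i, σ j, fun h3 => (ne_of_lt hij) (σ.injective h3), rfl⟩) ?_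
      rw [inner_sub_right, h2, sub_self]
  obtain ⟨h1, h2, h3⟩ := dim_frAR_sorted59 h F' (k := fun i => k (σ i)) (fun i => hk (σ i)) hs
  exact ⟨σ, h1, h2, h3⟩

/-- the formula in an ordered frame -/
theorem dim_frR_sorted59 (h : DimH Φ n l v) (F : Fr Φ m e c d)
    (hs : ∀ i j, i < j → (inner ℝ v (e j) : ℝ) < inner ℝ v (e i))
    (h0 : ∀ i, 0 ≤ (inner ℝ v (e i) : ℝ)) (hd : d ≠ 0 → ∀ i, 0 < (inner ℝ v (e i) : ℝ)) {k : Fin m → ℝ}
    (hk : ∀ i, (inner ℝ l (e i) : ℝ) = c * k i) :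
    (∀ i j, i < j → |k j| ≤ k i) ∧ (d ≠ 0 → ∀ i, 0 ≤ k i) ∧ n * PdR d m 0 = PdR d m k ∧ 0 < PdR d m 0 := by
  classical
  have hc := F.pos
  have hv := v_sorted59 h F hs h0 hd
  have hmem2 : ∀ {i j : Fin m} (hij : i < j) {s : ℝ} (h : s = 1 ∨ s = -1), c • (e i + s • e j) ∈ Ps Φ v := by
    intro i j hij s hs'
    unfold Ps
    rw [Finset.mem_filter]
    refine ⟨?_, ?_⟩
    · rw [F.mem, fr_pairs43]
      exact Or.inl ⟨i, j, ne_of_lt hij, 1, s, Or.inl rfl, hs', by rw [one_smul]⟩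
    · rw [inner_smul_right, inner_add_right, inner_smul_right]
      have h1 := hs i j hij
      have h2 := h0 j
      have h3 : 0 < (inner ℝ v (e i) : ℝ) + s * inner ℝ v (e j) := by
        rcases hs' with rfl | rfl <;> linarith
      positivity
  have hmon : ∀ i j, i < j → |k j| ≤ k i := by
    intro i j hij
    have h1 := h.dom _ (hmem2 hij (s := 1) (Or.inl rfl))
    have h2 := h.dom _ (hmem2 hij (s := -1) (Or.inr rfl))
    rw [inner_smul_right, inner_add_right, inner_smul_right, hk, hk] at h1 h2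
    have h3 : 0 ≤ k i + k j := by
      by_contra hcon
      push Not at hcon
      have : c * (k i + k j) < 0 := mul_neg_of_pos_of_neg hc hcon
      nlinarith
    have h4 : 0 ≤ k i - k j := by
      by_contra hcon
      push Not at hcon
      have : c * (k i - k j) < 0 := mul_neg_of_pos_of_neg hc hcon
      nlinarith
    rw [abs_le]
    constructor <;> linarith
  have hpos : d ≠ 0 → ∀ i, 0 ≤ k i := by
    intro hd0 i
    have hdr : (0 : ℝ) < d := by exact_mod_cast Nat.pos_of_ne_zero hd0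
    have h1 : (d * c : ℝ) • e i ∈ Ps Φ v := by
      unfold Ps
      rw [Finset.mem_filter]
      refine ⟨(F.mem _).2 (Or.inr ⟨hd0, i, Or.inl rfl⟩), ?_⟩
      rw [inner_smul_right]
      exact mul_pos (mul_pos hdr hc) (hd hd0 i)
    have h2 := h.dom _ h1
    rw [inner_smul_right, hk] at h2
    by_contra hcon
    push Not at hcon
    have h3 : (d * c : ℝ) * (c * k i) < 0 := mul_neg_of_pos_of_neg (mul_pos hdr hc) (mul_neg_of_pos_of_neg hc hcon)
    linarith
  have hne : 0 < PdR d m 0 := by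
    unfold PdR
    apply mul_pos
    · refine Finset.prod_pos fun i _ => Finset.prod_pos fun j hj => ?_
      have h1 : (Vd d m j : ℝ) < Vd d m i := by exact_mod_cast Vd_lt43 d m (Finset.mem_Ioi.1 hj)
      have h2 : (0 : ℝ) ≤ Vd d m j := by exact_mod_cast Vd_nonneg43 d m j
      simp only [Pi.zero_apply, mul_zero, zero_add]
      nlinarith
    · by_cases hd0 : d = 0
      · rw [if_pos hd0]
        exact one_pos
      · rw [if_neg hd0]
        refine Finset.prod_pos fun i _ => ?_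
        simp only [Pi.zero_apply, mul_zero, zero_add]
        have h1 : 0 < Vd d m i := by
          unfold Vd
          have := i.2
          omega
        exact_mod_cast h1
  set Kst : ℝ := (∏ i : Fin m, ∏ _j ∈ Finset.Ioi i, c ^ 4) * (if d = 0 then 1 else ∏ _i : Fin m, (d * c ^ 2 : ℝ)) with hKst
  have hK0 : Kst ≠ 0 := by
    rw [hKst]
    apply mul_ne_zero
    · rw [Finset.prod_ne_zero_iff]
      intro i _
      rw [Finset.prod_ne_zero_iff]
      intro j _
      positivity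
    · by_cases hd0 : d = 0
      · rw [if_pos hd0]
        exact one_ne_zero
      · rw [if_neg hd0, Finset.prod_ne_zero_iff]
        intro i _
        have : (0 : ℝ) < d := by exact_mod_cast Nat.pos_of_ne_zero hd0
        positivity
  have hprod : ∀ (x : Fin m → ℝ) (w : E), (∀ i, (inner ℝ w (e i) : ℝ) = c * (2 * x i + (Vd d m i : ℝ))) →
      ∏ a ∈ Ps Φ v, (inner ℝ w a : ℝ) = Kst * PdR d m x := by
    intro x w hw
    rw [ps_sorted43 F hs h0 hd (fun a => (inner ℝ w a : ℝ))]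
    have h1 : ∀ (s : ℝ) (i j : Fin m), (inner ℝ w (c • (e i + s • e j)) : ℝ) =
        c ^ 2 * ((2 * x i + (Vd d m i : ℝ)) + s * (2 * x j + (Vd d m j : ℝ))) := by
      intro s i j
      rw [inner_smul_right, inner_add_right, inner_smul_right, hw, hw]
      ring
    have h2 : ∀ i : Fin m, (inner ℝ w ((d * c : ℝ) • e i) : ℝ) = (d * c ^ 2 : ℝ) * (2 * x i + (Vd d m i : ℝ)) := by
      intro i
      rw [inner_smul_right, hw]
      ring
    simp only [h1, h2]
    have h3 : (∏ i : Fin m, ∏ j ∈ Finset.Ioi i,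
          c ^ 2 * ((2 * x i + (Vd d m i : ℝ)) + -1 * (2 * x j + (Vd d m j : ℝ)))) *
        (∏ i : Fin m, ∏ j ∈ Finset.Ioi i,
          c ^ 2 * ((2 * x i + (Vd d m i : ℝ)) + 1 * (2 * x j + (Vd d m j : ℝ)))) =
        (∏ i : Fin m, ∏ _j ∈ Finset.Ioi i, c ^ 4) * ∏ i : Fin m, ∏ j ∈ Finset.Ioi i,
          ((2 * x i + (Vd d m i : ℝ)) ^ 2 - (2 * x j + (Vd d m j : ℝ)) ^ 2) := by
      rw [← Finset.prod_mul_distrib, ← Finset.prod_mul_distrib]
      apply Finset.prod_congr rfl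
      intro i _
      rw [← Finset.prod_mul_distrib, ← Finset.prod_mul_distrib]
      apply Finset.prod_congr rfl
      intro j _
      ring
    rw [h3, hKst]
    unfold PdR
    by_cases hd0 : d = 0
    · simp only [hd0, if_true]
      ring
    · simp only [hd0, if_false]
      rw [Finset.prod_mul_distrib]
      ring
  have h1 := h.dim
  rw [hprod 0 v (by
      intro i
      rw [hv]
      simp), hprod k ((2 : ℝ) • l + v) (by
      intro i
      rw [inner_add_left, inner_smul_left, hk, hv]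
      simp only [conj_trivial]
      ring)] at h1
  refine ⟨hmon, hpos, ?_, hne⟩
  have h3 : Kst * ((n : ℝ) * PdR d m 0) = Kst * PdR d m k := by
    rw [← h1]
    ring
  exact mul_left_cancel₀ hK0 h3

/-- types `B`, `C`, `D` -/
theorem dim_frR59 (h : DimH Φ n l v) (F : Fr Φ m e c d) {k : Fin m → ℝ} (hk : ∀ i, (inner ℝ l (e i) : ℝ) = c * k i) :
    ∃ (σ : Equiv.Perm (Fin m)) (s : Fin m → ℤ), (∀ i, s i = 1 ∨ s i = -1) ∧
      (∀ i j, i < j → |(s j : ℝ) * k (σ j)| ≤ s i * k (σ i)) ∧ (d ≠ 0 → ∀ i, 0 ≤ (s i : ℝ) * k (σ i)) ∧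
      n * PdR d m 0 = PdR d m (fun i => s i * k (σ i)) ∧ 0 < PdR d m 0 := by
  have hc := F.pos
  set σ : Equiv.Perm (Fin m) := Tuple.sort fun i => -|(inner ℝ v (e i) : ℝ)| with hσ
  have hmono : Monotone ((fun i => -|(inner ℝ v (e i) : ℝ)|) ∘ σ) := Tuple.monotone_sort _
  set s : Fin m → ℤ := fun i => if 0 ≤ (inner ℝ v (e (σ i)) : ℝ) then 1 else -1 with hs'
  have hs1 : ∀ i, s i = 1 ∨ s i = -1 := by
    intro i
    simp only [hs']
    split_ifs
    · left; rfl
    · right; rfl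
  have F' := fr_perm43 F σ (fun i => (s i : ℝ)) (by
    intro i
    rcases hs1 i with h | h <;> rw [h]
    · left; norm_num
    · right; norm_num)
  have hvi : ∀ i, (inner ℝ v ((s i : ℝ) • e (σ i)) : ℝ) = |(inner ℝ v (e (σ i)) : ℝ)| := by
    intro i
    rw [inner_smul_right]
    simp only [hs']
    split_ifs with h1
    · rw [abs_of_nonneg h1]
      simp
    · push Not at h1
      rw [abs_of_neg h1]
      simp
  have hsort : ∀ i j, i < j → (inner ℝ v ((s j : ℝ) • e (σ j)) : ℝ) < inner ℝ v ((s i : ℝ) • e (σ i)) := by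
    intro i j hij
    rw [hvi, hvi]
    have h1 := hmono hij.le
    simp only [Function.comp_apply] at h1
    rcases lt_or_eq_of_le (show |(inner ℝ v (e (σ j)) : ℝ)| ≤ |inner ℝ v (e (σ i))| by linarith) with h2 | h2
    · exact h2
    · exfalso
      have hne : σ i ≠ σ j := fun h3 => (ne_of_lt hij) (σ.injective h3)
      rcases abs_eq_abs.1 h2 with h3 | h3
      · refine h.reg (c • (e (σ i) - e (σ j))) ((F.mem _).2 (Or.inl ⟨σ i, σ j, hne, Or.inr (Or.inl rfl)⟩)) ?_
        rw [inner_smul_right, inner_sub_right, h3, sub_self, mul_zero]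
      · refine h.reg (c • (e (σ i) + e (σ j))) ((F.mem _).2 (Or.inl ⟨σ i, σ j, hne, Or.inl rfl⟩)) ?_
        rw [inner_smul_right, inner_add_right, h3, add_neg_cancel, mul_zero]
  have h0 : ∀ i, 0 ≤ (inner ℝ v ((s i : ℝ) • e (σ i)) : ℝ) := by
    intro i
    rw [hvi]
    exact abs_nonneg _
  have hd : d ≠ 0 → ∀ i, 0 < (inner ℝ v ((s i : ℝ) • e (σ i)) : ℝ) := by
    intro hd0 i
    rw [hvi, abs_pos]
    intro h1
    refine h.reg ((d * c : ℝ) • e (σ i)) ((F.mem _).2 (Or.inr ⟨hd0, σ i, Or.inl rfl⟩)) ?_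
    rw [inner_smul_right, h1, mul_zero]
  obtain ⟨h1, h4, h2, h3⟩ := dim_frR_sorted59 h F' hsort h0 hd (k := fun i => s i * k (σ i)) (by
    intro i
    rw [inner_smul_right, hk]
    ring)
  exact ⟨σ, s, hs1, h1, h4, h2, h3⟩

/-- the coordinates are all integral or all half odd -/
theorem int_or59 (F : Fr Φ m e c d) (hl : ∀ a ∈ Φ, ∃ k : ℤ, co a l = k) (hm : 2 ≤ m) :
    (∃ z : Fin m → ℤ, ∀ i, cx e c l i = z i) ∨ (∃ z : Fin m → ℤ, ∀ i, cx e c l i = z i + 1 / 2) := by
  have hadd : ∀ {i j : Fin m}, i ≠ j → ∃ k : ℤ, cx e c l i + cx e c l j = k := by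
    intro i j hij
    obtain ⟨k, hk⟩ := hl _ (F.rt_mem hij (Or.inl rfl) (Or.inl rfl))
    rw [F.co_rt hij (Or.inl rfl) (Or.inl rfl)] at hk
    exact ⟨k, by rw [← hk]; push_cast; ring⟩
  have hsub : ∀ {i j : Fin m}, i ≠ j → ∃ k : ℤ, cx e c l i - cx e c l j = k := by
    intro i j hij
    obtain ⟨k, hk⟩ := hl _ (F.rt_mem hij (s := 1) (t := -1) (Or.inl rfl) (Or.inr rfl))
    rw [F.co_rt hij (Or.inl rfl) (Or.inr rfl)] at hk
    exact ⟨k, by rw [← hk]; push_cast; ring⟩
  let i0 : Fin m := ⟨0, by omega⟩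
  let i1 : Fin m := ⟨1, by omega⟩
  have h01 : i0 ≠ i1 := by
    intro h
    have := congrArg Fin.val h
    simp [i0, i1] at this
  obtain ⟨a, ha⟩ := hadd h01
  obtain ⟨b, hb⟩ := hsub h01
  have h2 : 2 * cx e c l i0 = ((a + b : ℤ) : ℝ) := by push_cast; linarith
  have hd : ∀ i, ∃ k : ℤ, cx e c l i - cx e c l i0 = k := by
    intro i
    by_cases h : i = i0
    · exact ⟨0, by rw [h]; simp⟩
    · exact hsub h
  choose z hz using hd
  rcases Int.even_or_odd' (a + b) with ⟨q, hq | hq⟩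
  · left
    refine ⟨fun i => z i + q, fun i => ?_⟩
    have h3 : cx e c l i0 = q := by rw [hq] at h2; push_cast at h2; linarith
    have := hz i
    push_cast
    linarith
  · right
    refine ⟨fun i => z i + q, fun i => ?_⟩
    have h3 : cx e c l i0 = q + 1 / 2 := by rw [hq] at h2; push_cast at h2; linarith
    have := hz i
    push_cast
    linarith

/-- types `B`, `C`, `D` -/
theorem dim_all59 (h : DimH Φ n l v) (hl : ∀ a ∈ Φ, ∃ k : ℤ, co a l = k) (F : Fr Φ m e c d) (hm : 2 ≤ m) :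
    n ∈ AllD d m := by
  have hc := F.pos
  obtain ⟨σ, s, hs, h1, h2, h3, h4⟩ := dim_frR59 h F (k := fun i => cx e c l i) (by
    intro i
    unfold cx
    field_simp)
  -- twice the coordinates
  obtain ⟨y, hy, hpar⟩ : ∃ y : Fin m → ℤ, (∀ i, 2 * ((s i : ℝ) * cx e c l (σ i)) = y i) ∧ ∀ i j, (2 : ℤ) ∣ y i - y j := by
    rcases int_or59 F hl hm with ⟨z, hz⟩ | ⟨z, hz⟩
    · refine ⟨fun i => 2 * (s i * z (σ i)), ?_, ?_⟩
      · intro i
        rw [hz]
        push_cast
        ring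
      · intro i j
        exact ⟨s i * z (σ i) - s j * z (σ j), by ring⟩
    · refine ⟨fun i => s i * (2 * z (σ i) + 1), ?_, ?_⟩
      · intro i
        rw [hz]
        push_cast
        ring
      · intro i j
        have hodd : ∀ i, ∃ q, s i * (2 * z (σ i) + 1) = 2 * q + 1 := by
          intro i
          rcases hs i with h | h
          · exact ⟨z (σ i), by rw [h]; ring⟩
          · exact ⟨-z (σ i) - 1, by rw [h]; ring⟩
        obtain ⟨p, hp⟩ := hodd i
        obtain ⟨q, hq⟩ := hodd j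
        simp only [hp, hq]
        exact ⟨p - q, by ring⟩
  refine ⟨y, ?_, hpar, ?_, ?_⟩
  · intro i j hij
    have h5 := h1 i j hij
    have h6 : |(y j : ℝ)| ≤ y i := by
      rw [← hy i, ← hy j, abs_mul, abs_of_pos (by norm_num : (0 : ℝ) < 2)]
      linarith
    exact_mod_cast h6
  · rw [PdR_eq43 d m (x := fun i => (s i : ℝ) * cx e c l (σ i)) hy, PdR_eq43 d m (x := 0) (y := 0) (by
      intro i
      simp)] at h3
    exact_mod_cast h3
  · rw [PdR_eq43 d m (x := 0) (y := 0) (by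
      intro i
      simp)] at h4
    have h5 : (0 : ℤ) < Py d m 0 := by exact_mod_cast h4
    exact h5.ne'

/-- type `A` -/
theorem dim_allA59 (h : DimH Φ n l v) (hl : ∀ a ∈ Φ, ∃ k : ℤ, co a l = k) (F : FrA Φ m u) (hm : 2 ≤ m) : n ∈ AllA m := by
  obtain ⟨σ, h1, h2, h3⟩ := dim_frAR59 h F (k := fun i => (inner ℝ l (u i) : ℝ)) (fun i => rfl)
  set i0 : Fin m := ⟨m - 1, by omega⟩ with hi0
  -- the differences are integral
  have hint : ∀ i j, ∃ q : ℤ, (inner ℝ l (u i) : ℝ) - inner ℝ l (u j) = q := by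
    intro i j
    by_cases hij : i = j
    · exact ⟨0, by rw [hij]; simp⟩
    · obtain ⟨q, hq⟩ := hl (u i - u j) ((F.mem _).2 ⟨i, j, hij, rfl⟩)
      refine ⟨q, ?_⟩
      rw [← hq]
      have h5 : (inner ℝ (u i - u j) (u i - u j) : ℝ) = 2 := by
        rw [inner_sub_right, frA_dif43 F, frA_dif43 F, if_pos rfl, if_neg (Ne.symm hij), if_neg hij, if_pos rfl]
        norm_num
      unfold co
      rw [h5, inner_sub_right]
      ring
  have hex : ∀ i, ∃ q : ℤ, (inner ℝ l (u (σ i)) : ℝ) = q + inner ℝ l (u (σ i0)) := by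
    intro i
    obtain ⟨q, hq⟩ := hint (σ i) (σ i0)
    exact ⟨q, by linarith⟩
  choose z hz using hex
  refine ⟨z, ?_, ?_, ?_, ?_⟩
  · intro i j hij
    have h5 : (inner ℝ l (u (σ j)) : ℝ) ≤ inner ℝ l (u (σ i)) := h1 i j hij
    have h7 := hz i
    have h8 := hz j
    have h6 : (z j : ℝ) ≤ z i := by linarith
    exact Int.cast_le.1 h6
  · intro i hi
    have h5 : i = i0 := Fin.ext (by simp only [hi0]; omega)
    have h6 := hz i
    rw [h5] at h6 ⊢
    have h7 : (z i0 : ℝ) = 0 := by linarith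
    exact Int.cast_eq_zero.1 h7
  · rw [PaR_eq43 m (x := fun i => (inner ℝ l (u (σ i)) : ℝ)) hz, PaR_eq43 m (x := 0) (z := 0) (t := 0) (by
      intro i
      simp)] at h2
    exact_mod_cast h2
  · rw [PaR_eq43 m (x := 0) (z := 0) (t := 0) (by
      intro i
      simp)] at h3
    have h5 : (0 : ℤ) < Pa m 0 := by exact_mod_cast h3
    exact h5.ne'

/-- type `A`, given coordinates -/
theorem dim_frA59 (h : DimH Φ n l v) (F : FrA Φ m u) {k : Fin m → ℤ} {t : ℝ}
    (hk : ∀ i, (inner ℝ l (u i) : ℝ) = k i + t) :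
    ∃ x : Fin m → ℤ, ∑ i, |x i| = ∑ i, |k i| ∧ (∀ i j, i < j → x j ≤ x i) ∧ n * Pa m 0 = Pa m x ∧ Pa m 0 ≠ 0 := by
  obtain ⟨σ, h1, h2, h3⟩ := dim_frAR59 h F (k := fun i => (inner ℝ l (u i) : ℝ)) (fun i => rfl)
  refine ⟨fun i => k (σ i), Equiv.sum_comp σ fun i => |k i|, ?_, ?_, ?_⟩
  · intro i j hij
    have h5 : (inner ℝ l (u (σ j)) : ℝ) ≤ inner ℝ l (u (σ i)) := h1 i j hij
    rw [hk, hk] at h5
    have h6 : (k (σ j) : ℝ) ≤ k (σ i) := by linarith
    exact Int.cast_le.1 h6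
  · rw [PaR_eq43 m (x := fun i => (inner ℝ l (u (σ i)) : ℝ)) (z := fun i => k (σ i)) (t := t) (fun i => hk (σ i)),
      PaR_eq43 m (x := 0) (z := 0) (t := 0) (by
      intro i
      simp)] at h2
    exact_mod_cast h2
  · rw [PaR_eq43 m (x := 0) (z := 0) (t := 0) (by
      intro i
      simp)] at h3
    have h5 : (0 : ℤ) < Pa m 0 := by exact_mod_cast h3
    exact h5.ne'

end AT
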