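import Pool.Agent.Helper81.AT.Defs
import Pool.Agent.Helper59.AT.Dim

/-!
Project AT (MP_b8862a_ag), block AT-E3.
-/

set_option linter.unusedSectionVars false
set_option linter.unusedVariables false

open Module PF TF PW PX

namespace AT

variable {E : Type*} [NormedAddCommGroup E] [InnerProductSpace ℝ E] {Φ X : Finset E} {m n : ℕ} {l v : E}

theorem Wd'.dimH59 (h : Wd' Φ X n l v) : DimH Φ n l v := ⟨h.reg, h.v_eq, h.dom, h.dim⟩

/-- AT-E3, types `B`, `C`, `D` -/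
theorem dim_all' {e : Fin m → E} {c : ℝ} {d : ℕ} (h : Wd' Φ X n l v) (F : Fr Φ m e c d) (hm : 2 ≤ m) :
    n ∈ AllD d m :=
  dim_all59 h.dimH59 (fun a ha => h.sat.int a ha l h.l_mem) F hm

/-- AT-E3, type `A` -/
theorem dim_allA' {u : Fin m → E} (h : Wd' Φ X n l v) (F : FrA Φ m u) (hm : 2 ≤ m) : n ∈ AllA m :=
  dim_allA59 h.dimH59 (fun a ha => h.sat.int a ha l h.l_mem) F hm

/-- AT-E3, type `A`, given coordinates -/
theorem dim_frA' {u : Fin m → E} (h : Wd' Φ X n l v) (F : FrA Φ m u) (hm : 2 ≤ m) {k : Fin m → ℤ} {t : ℝ}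
    (hk : ∀ i, (inner ℝ l (u i) : ℝ) = k i + t) :
    ∃ x : Fin m → ℤ, ∑ i, |x i| = ∑ i, |k i| ∧ (∀ i j, i < j → x j ≤ x i) ∧ n * Pa m 0 = Pa m x ∧ Pa m 0 ≠ 0 :=
  dim_frA59 h.dimH59 F hk

end AT
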